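import Pool.Agent.Helper84.BT.Goals

/-!
# Packet BT-SG5 (project BT, MP_57df85_nt): Siegel's lemma
-/

set_option autoImplicit false

open Finset

namespace Pool.Agent.Helper2.BT.SG5

open Pool.Agent.Helper84.BT

attribute [local instance] Matrix.seminormedAddCommGroup

theorem t : S_SG5 := by
  intro ι κ _ _ _ a B hB ha hc
  rcases Nat.eq_zero_or_pos (Fintype.card κ) with hκ | hκ
  · have : IsEmpty κ := Fintype.card_eq_zero_iff.1 hκ
    refine ⟨fun _ => 1, ?_, fun k => isEmptyElim k, fun i => ?_⟩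
    · intro h
      obtain ⟨i⟩ := ‹Nonempty ι›
      exact one_ne_zero (congrFun h i)
    · have h1 : (1 : ℤ) ≤ (Fintype.card ι : ℤ) := by exact_mod_cast Fintype.card_pos
      have h2 : (1 : ℤ) ≤ (B : ℤ) := by exact_mod_cast hB
      rw [abs_one]
      exact one_le_pow₀ (one_le_mul_of_one_le_of_one_le h1 h2)
  · have hlt : Fintype.card κ < Fintype.card ι := by omega
    obtain ⟨c, hc0, hAc, hcn⟩ :=
      Int.Matrix.exists_ne_zero_int_vec_norm_le (Matrix.of a) hlt hκ
    refine ⟨c, hc0, fun k => congrFun hAc k, fun i => ?_⟩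
    have hn : (1 : ℝ) ≤ (Fintype.card ι : ℝ) := by exact_mod_cast Fintype.card_pos
    have hBr : (1 : ℝ) ≤ (B : ℝ) := by exact_mod_cast hB
    have hA : ‖Matrix.of a‖ ≤ (B : ℝ) := by
      rw [Matrix.norm_le_iff (by linarith)]
      intro k i
      rw [Int.norm_eq_abs]
      exact_mod_cast ha k i
    have hm1 : (1 : ℝ) ≤ max 1 ‖Matrix.of a‖ := le_max_left _ _
    have hm2 : max 1 ‖Matrix.of a‖ ≤ (B : ℝ) := max_le hBr hA
    have hexp : (Fintype.card κ : ℝ) / ((Fintype.card ι : ℝ) - Fintype.card κ) ≤ 5 := by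
      have h1 : (0 : ℝ) < (Fintype.card ι : ℝ) - Fintype.card κ := by
        have : (Fintype.card κ : ℝ) < Fintype.card ι := by exact_mod_cast hlt
        linarith
      rw [div_le_iff₀ h1]
      have h2 : (6 : ℝ) * Fintype.card κ ≤ 5 * Fintype.card ι := by exact_mod_cast hc
      linarith
    have h1 : ‖c‖ ≤ ((Fintype.card ι : ℝ) * B) ^ (5 : ℝ) := by
      refine hcn.trans ?_
      calc ((Fintype.card ι : ℝ) * max 1 ‖Matrix.of a‖) ^
            ((Fintype.card κ : ℝ) / ((Fintype.card ι : ℝ) - Fintype.card κ))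
          ≤ ((Fintype.card ι : ℝ) * max 1 ‖Matrix.of a‖) ^ (5 : ℝ) :=
            Real.rpow_le_rpow_of_exponent_le (one_le_mul_of_one_le_of_one_le hn hm1) hexp
        _ ≤ ((Fintype.card ι : ℝ) * B) ^ (5 : ℝ) := by
            refine Real.rpow_le_rpow (by positivity) ?_ (by norm_num)
            exact mul_le_mul_of_nonneg_left hm2 (by linarith)
    have h2 : ‖c i‖ ≤ ‖c‖ := norm_le_pi_norm c i
    rw [Int.norm_eq_abs] at h2
    have h3 : ((Fintype.card ι : ℝ) * B) ^ (5 : ℝ) = ((Fintype.card ι : ℝ) * B) ^ (5 : ℕ) := by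
      exact_mod_cast Real.rpow_natCast ((Fintype.card ι : ℝ) * B) 5
    rw [h3] at h1
    have h4 := h2.trans h1
    exact_mod_cast h4

end Pool.Agent.Helper2.BT.SG5
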